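import Pool.Agent.U133.OC.Orbits

/-!
# The oriented cycle double cover conjecture for Cayley graphs and graphs with few symmetries fixing
arcs (MP_781dd6_co)

The arcs of a finite graph `G` decompose into directed cycles of length at least three if `G` has a
group `B` of automorphisms such that every vertex has an even number of neighbours outside its orbit
and not exactly one neighbour in its orbit, and such that (if the number of the neighbours in the
orbit is odd) an element of `B` which fixes two adjacent vertices `x`, `y` exchanged by some element
of `B` fixes all vertices of their orbit. This contains all Cayley graphs of finite groups with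
degree different from one (`B` acts regularly on the vertices), all graphs of degree at least two
with a group of automorphisms which acts regularly on the arcs, and all vertex-transitive graphs of
degree at least two with a transitive group in which only the identity fixes two adjacent vertices.

Proof. Edges between different orbits form an even subgraph. In one orbit of arcs without opposite
arcs every vertex has as many outgoing as incoming arcs. If the stabiliser of a vertex is not trivial
then in an orbit of arcs which contains the opposite arcs some `g` moves an arc `(x, y)` to an arc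
`(y, z)` with `z ≠ x`, and the orbits of the powers of `g` and their images decompose the orbit of
arcs. If `B` is regular on the orbit, the connection set contains an involution `a` (if the degree is
odd). With two further involutions one has a cubic graph with three perfect matchings (a nowhere-zero
4-flow). With an element `c` which is no involution one takes the closed trails which use `a` and `c`
in turn, and the cycles of `c⁻¹`; if these trails use an edge twice then `a` and `c` commute, and one
has a prism (squares and two cycles) or a Möbius ladder (nowhere-zero 4-flow).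
-/

set_option autoImplicit false

namespace Pool.Agent.Results.MP_781dd6_co.CayleyGraphs

open Pool.Agent.TH505.OCDC Pool.Agent.R759.OC Pool.Agent.U133.OC

open scoped Classical in
/-- The arcs of `G` decompose into directed cycles of length at least three: there is a list of
cycles, each traversed in a direction, such that every edge is traversed exactly once in each of its
two directions. -/
def Decomposes {V : Type} (G : SimpleGraph V) : Prop :=
  ∃ C : List (Σ v : V, G.Walk v v), (∀ c ∈ C, c.2.IsCycle) ∧
    ∀ u v : V, G.Adj u v →
      (C.map (fun c => (c.2.darts.filter (fun d => decide (d.toProd = (u, v)))).length)).sum = 1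

lemma of_dec {V : Type} [Fintype V] {G : SimpleGraph V} (h : Dec G G.Adj) : Decomposes G := by
  obtain ⟨C, hC, hC'⟩ := h
  refine ⟨C, hC, ?_⟩
  intro u v huv
  have := hC' u v
  rw [ind_pos huv] at this
  exact this

/-- (1) Let `B` be a group of automorphisms of the finite simple graph `G` such that every vertex
has an even number of neighbours outside its `B`-orbit and not exactly one neighbour in its orbit.
For the vertices `x` with an odd number of neighbours in their orbit assume moreover: if `y` is a
neighbour of `x` and some element of `B` exchanges `x` and `y`, then every element of `B` which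
fixes `x` and `y` fixes all vertices in the orbit of `x`. Then the arcs of `G` decompose into
directed cycles of length at least three. (2) In particular this holds for every graph on a finite
group which is invariant under the left translations (that is, every Cayley graph) and whose
degree is not one. -/
theorem result :
    (∀ (V : Type) [Fintype V] (G : SimpleGraph V) (B : Subgroup (Equiv.Perm V)),
      (∀ b ∈ B, ∀ u v, G.Adj u v → G.Adj (b u) (b v)) →
      (∀ x, Even {y | G.Adj x y ∧ ¬ ∃ c ∈ B, c x = y}.ncard) →
      (∀ x, {y | G.Adj x y ∧ ∃ c ∈ B, c x = y}.ncard ≠ 1) →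
      (∀ x, Odd {y | G.Adj x y ∧ ∃ c ∈ B, c x = y}.ncard →
        ∀ y, G.Adj x y → (∃ r ∈ B, r x = y ∧ r y = x) →
          ∀ b ∈ B, b x = x → b y = y → ∀ z, (∃ c ∈ B, c x = z) → b z = z) →
      Decomposes G) ∧
    (∀ (Γ : Type) [Group Γ] [Fintype Γ] (G : SimpleGraph Γ),
      (∀ g x y : Γ, G.Adj x y → G.Adj (g * x) (g * y)) →
      (∀ x, (G.neighborSet x).ncard ≠ 1) →
      Decomposes G) := by
  have main : ∀ (V : Type) [Fintype V] (G : SimpleGraph V) (B : Subgroup (Equiv.Perm V)),
      (∀ b ∈ B, ∀ u v, G.Adj u v → G.Adj (b u) (b v)) →
      (∀ x, Even {y | G.Adj x y ∧ ¬ ∃ c ∈ B, c x = y}.ncard) →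
      (∀ x, {y | G.Adj x y ∧ ∃ c ∈ B, c x = y}.ncard ≠ 1) →
      (∀ x, Odd {y | G.Adj x y ∧ ∃ c ∈ B, c x = y}.ncard →
        ∀ y, G.Adj x y → (∃ r ∈ B, r x = y ∧ r y = x) →
          ∀ b ∈ B, b x = x → b y = y → ∀ z, (∃ c ∈ B, c x = z) → b z = z) →
      Decomposes G := by
    intro V _ G B hB hout hdeg hst
    refine of_dec (dec_main B hB hout ?_ hdeg)
    intro x hx b hb y hxy hr h1 h2 z hz
    exact hst x hx y hxy hr b hb h1 h2 z hz
  refine ⟨main, ?_⟩
  intro Γ _ _ G hG hdeg
  have htr : ∀ x y : Γ, ∃ c ∈ (MulAction.toPermHom Γ Γ).range, c x = y := by
    intro x y
    refine ⟨MulAction.toPermHom Γ Γ (y * x⁻¹), ⟨_, rfl⟩, ?_⟩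
    show y * x⁻¹ * x = y
    rw [inv_mul_cancel_right]
  refine main Γ G (MulAction.toPermHom Γ Γ).range ?_ ?_ ?_ ?_
  · rintro _ ⟨g, rfl⟩ u v h
    exact hG g u v h
  · intro x
    have : {y | G.Adj x y ∧ ¬ ∃ c ∈ (MulAction.toPermHom Γ Γ).range, c x = y} = ∅ := by
      ext y
      simp only [Set.mem_ofPred_eq, Set.mem_empty_iff_false, iff_false, not_and, not_not]
      exact fun _ => htr x y
    rw [this, Set.ncard_empty]
    exact Even.zero
  · intro x
    have : {y | G.Adj x y ∧ ∃ c ∈ (MulAction.toPermHom Γ Γ).range, c x = y} =
        G.neighborSet x := by
      ext y
      exact ⟨fun h => h.1, fun h => ⟨h, htr x y⟩⟩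
    rw [this]
    exact hdeg x
  · rintro x _ y _ _ _ ⟨g, rfl⟩ h1 _ z _
    have h3 : g * x = x := h1
    have h4 : g = 1 := mul_eq_right.1 h3
    show g * z = z
    rw [h4, one_mul]

end Pool.Agent.Results.MP_781dd6_co.CayleyGraphs
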