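import Pool.Agent.U881.LF.Cover

/-!
# The oriented cycle double cover conjecture for graphs without an induced linear forest (MP_781dd6_co)

Let `F` be a linear forest with nine vertices and at least four edges, two of them at the same
vertex, which does not contain `2P_3 + P_2` as an induced subgraph (there are 17 of them: `P_9`,
`P_8 + P_1`, `P_7 + 2P_1`, `P_6 + P_2 + P_1`, `P_6 + 3P_1`, `P_5 + P_4`, `P_5 + P_3 + P_1`,
`P_5 + 2P_2`, `P_5 + P_2 + 2P_1`, `P_5 + 4P_1`, `2P_4 + P_1`, `P_4 + P_3 + 2P_1`,
`P_4 + 2P_2 + P_1`, `P_4 + P_2 + 3P_1`, `2P_3 + 3P_1`, `P_3 + 3P_2`, `P_3 + 2P_2 + 2P_1`).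
Every finite simple graph without cut edges and without an induced copy of `F` has an orientable
cycle double cover with five classes: its associated digraph decomposes into directed cycles of
length at least three, which can be divided into five families such that no family uses an edge
twice.

Proof.  Multigraphs of this kind have a nowhere-zero 4-flow or a contraction to the Petersen graph
(`U881/LF/Main`, handed in for MP_e6539c_co, LinearForests).  A contraction without such a double
cover, with as few edges as possible, has no induced copy of `F`, because the copies can be lifted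
(`U881/LF/Lift`); so it has a Petersen quotient.  By the starting library (`R140/PK/Or`) double covers
of two sides of a 3-edge-cut fit together after a permutation of the five classes, and the Petersen
graph has an orientable double cover with five classes.
-/

set_option autoImplicit false

namespace Pool.Agent.Results.MP_781dd6_co.LinearForests
open Finset

open scoped Classical in
/-- how often the closed walks of the list `C` traverse the arc from `u` to `v` -/
noncomputable def uses {V : Type} {G : SimpleGraph V} (C : List (Σ v : V, G.Walk v v)) (u v : V) : ℕ :=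
  (C.map (fun c => (c.2.darts.filter (fun d => decide (d.toProd = (u, v)))).length)).sum

/-- Let `F` be a linear forest on the vertices `0, ..., 8` (a spanning subgraph of the path
`0, 1, ..., 8`) with at least four edges, two of which have a common end, which has no induced
subgraph `2P_3 + P_2` (with the vertices `q 0, ..., q 7` and the edges `{q i, q (i + 1)}`,
`i ∉ {2, 5}`).  A simple graph without cut edges which has no induced subgraph isomorphic to `F` has
an orientable cycle double cover with five classes. -/
theorem result (F : SimpleGraph (Fin 9)) (hF : F ≤ SimpleGraph.pathGraph 9)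
    (h4 : 4 ≤ F.edgeSet.ncard) (h3 : ∃ a b c, a ≠ c ∧ F.Adj a b ∧ F.Adj b c)
    (hq : ¬ ∃ q : Fin 8 → Fin 9, Function.Injective q ∧
      ∀ i j, i < j → (F.Adj (q i) (q j) ↔ (i.val + 1 = j.val ∧ i.val ≠ 2 ∧ i.val ≠ 5)))
    (V : Type) [Finite V] (G : SimpleGraph V)
    (hb : ∀ u v, G.Adj u v → (G.deleteEdges {s(u, v)}).Reachable u v)
    (hp : IsEmpty (F ↪g G)) :
    ∃ C : Fin 5 → List (Σ v : V, G.Walk v v), (∀ i, ∀ c ∈ C i, c.2.IsCycle) ∧
      (∀ i u v, uses (C i) u v + uses (C i) v u ≤ 1) ∧
      ∀ u v, G.Adj u v → ∑ i, uses (C i) u v = 1 := by
  classical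
  have hV : Fintype V := Fintype.ofFinite V
  obtain ⟨E, _, _, K, hK, hF⟩ := Pool.Agent.U881.LF.simple_gen F hF h4 h3 hq G hb hp
  obtain ⟨C, h1, h2, h3⟩ := Pool.Agent.H23.PS.cycles_of_classes G K hK hF
  exact ⟨C, h1, h2, h3⟩

end Pool.Agent.Results.MP_781dd6_co.LinearForests
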