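import Pool.Agent.U653.OC.Main
import Pool.Agent.Results.MP_781dd6_co.EveryMultiplicity

/-!
# Directed cycles which traverse every edge once or twice in each direction, and at least `23 / 30`
of the edges exactly once (MP_781dd6_co)

The oriented cycle double cover conjecture asks for directed cycles (of length at least three) which
traverse every edge of a given bridgeless graph exactly once in each direction.  We show that every
bridgeless graph has six families of directed cycles such that every edge is traversed by all of them
either exactly once in each direction or exactly twice in each direction, and the edges of the second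
kind have at most `7 / 30` of the weight, for any given weighting of the edges (by real numbers, also
negative ones).  So the arcs of the graph can be covered by directed cycles of total length at most
`37 / 15` times the number of edges (the conjecture would give `2`).

Proof.  (1) By Seymour's 6-flow theorem (starting files) there are a flow `α` with values `0, 1, -1`,
supported by the even set `A`, and a flow `β` with values at most two, supported by a set `B` with
`A ∪ B = E`.  Choose `A` and `B` such that `3 w(A \ B) + 2 w(A ∩ B)` is as small as possible.  The
flows `β + t α` modulo three give `2 w(A \ B) ≤ w(A ∩ B)`, and the sums of `A` with the even sets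
contained in `B` give `w(A \ B) + 2 w(A ∩ B) ≤ w(E)`; hence the minimum is at most `7 w(E) / 5`.
(2) There are three flows `φ` with the support `B`, values at most two, and each edge of `B` has the
value `2` or `-2` in exactly one of them; choose the one for which the set `A ∩ {|φ| = 2}` has the
smallest weight.  (3) Let `α'` be an orientation of the even set `A Δ {φ odd}`.  The four flows
`α`, `α'`, `(- α - α' + φ) / 2`, `(- α - α' - φ) / 2` have sum zero.  One checks that they traverse
an edge once in each direction, but twice if it belongs to `A ∩ {|φ| = 2}`, or if it belongs to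
`A \ B` and `α = α'` there; one can change the sign of `α'`.  So the doubled edges have weight at
most `w(A ∩ B) / 3 + w(A \ B) / 2 ≤ 7 w(E) / 30`.  Two of the four flows have values at most two and
are split into two.
-/

set_option autoImplicit false

open Finset

namespace Pool.Agent.Results.MP_781dd6_co.MostEdgesOnce

open Pool.Agent.H160R2.HF (OrGraph)
open Pool.Agent.N175.OC (CovI orient orient_bridgeless)

/-- The edges of the multigraph `K` with exactly one end in `X`. -/
def boundary {V E : Type} [DecidableEq V] [Fintype E] (K : OrGraph V E) (X : Finset V) :
    Finset E :=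
  Finset.univ.filter (fun e => ¬ (K.t e ∈ X ↔ K.h e ∈ X))

/-- No edge of the simple graph `S` is a cut edge. -/
def NoCutEdge {V : Type} (S : SimpleGraph V) : Prop :=
  ∀ u v : V, S.Adj u v → (S.deleteEdges {s(u, v)}).Reachable u v

open scoped Classical in
/-- how often the closed walks of the list `C` traverse the arc from `u` to `v` -/
noncomputable def uses {V : Type} {S : SimpleGraph V} (C : List (Σ v : V, S.Walk v v)) (u v : V) :
    ℕ :=
  (C.map (fun c => (c.2.darts.filter (fun d => decide (d.toProd = (u, v)))).length)).sum

/-- (1) Let `S` be a finite simple graph without cut edge and `w` a weighting of its edges by real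
numbers. There are six families of directed cycles of length at least three, such that no family
traverses an edge twice, and a function `m` with the values `1` and `2`, such that every edge `e` is
traversed by all families together exactly `m e` times in each of its two directions, and the edges
with `m e = 2` have at most `7 / 30` of the weight of all edges.

(2) The same for finite multigraphs `K` (loops and parallel edges allowed) without cut edge, with
six circulations with values in `{-1, 0, 1}`, which have at the edge `e` the value `1` exactly `m e`
times and the value `-1` exactly `m e` times. -/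
theorem result :
    (∀ (V : Type) [Fintype V] [DecidableEq V] (S : SimpleGraph V) [DecidableRel S.Adj],
      NoCutEdge S → ∀ w : Sym2 V → ℝ,
      ∃ (C : Fin 6 → List (Σ v : V, S.Walk v v)) (m : Sym2 V → ℕ),
        (∀ i, ∀ c ∈ C i, c.2.IsCycle) ∧
        (∀ i u v, uses (C i) u v + uses (C i) v u ≤ 1) ∧
        (∀ e, m e = 1 ∨ m e = 2) ∧
        (∀ u v, S.Adj u v → ∑ i, uses (C i) u v = m s(u, v)) ∧
        30 * ∑ e ∈ S.edgeFinset.filter (fun e => m e = 2), w e ≤ 7 * ∑ e ∈ S.edgeFinset, w e) ∧
    (∀ (V E : Type) [Fintype V] [DecidableEq V] [Fintype E] [DecidableEq E] (K : OrGraph V E),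
      (∀ X : Finset V, (boundary K X).card ≠ 1) → ∀ w : E → ℝ,
      ∃ (g : Fin 6 → E → ℤ) (m : E → ℕ),
        (∀ i, K.IsFlow (g i)) ∧ (∀ i e, g i e = 0 ∨ g i e = 1 ∨ g i e = -1) ∧
        (∀ e, m e = 1 ∨ m e = 2) ∧
        (∀ e, (Finset.univ.filter (fun i => g i e = 1)).card = m e ∧
          (Finset.univ.filter (fun i => g i e = -1)).card = m e) ∧
        30 * ∑ e ∈ Finset.univ.filter (fun e => m e = 2), w e ≤ 7 * ∑ e, w e) := by
  constructor
  · intro V _ _ S _ hS w
    have hb : ∀ X : Finset V, (Pool.Agent.H239R2.Cover.ecut (orient S).t (orient S).h X).card ≠ 1 :=
      orient_bridgeless S hS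
    obtain ⟨m, hm, hC, hw⟩ := Pool.Agent.U653.OC.main (orient S) hb (fun e => w e.1)
    obtain ⟨C, h1, h2, h3⟩ := EveryMultiplicity.to_lists S hC
    classical
    let m' : Sym2 V → ℕ := fun e => if h : e ∈ S.edgeSet then m ⟨e, h⟩ else 1
    have hm' : ∀ e : S.edgeSet, m' e.1 = m e := fun e => by simp [m']
    refine ⟨C, m', h1, h2, ?_, ?_, ?_⟩
    · intro e
      by_cases h : e ∈ S.edgeSet
      · have := hm ⟨e, h⟩
        simpa [m', h] using this
      · left
        simp [m', h]
    · intro u v huv
      rw [hm' ⟨s(u, v), huv⟩]
      exact h3 u v huv
    · have e1 : ∑ e ∈ S.edgeFinset, w e = ∑ e : S.edgeSet, w e.1 := by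
        rw [← Finset.sum_subtype S.edgeFinset (fun x => SimpleGraph.mem_edgeFinset) (fun e => w e)]
      have e2 : ∑ e ∈ S.edgeFinset.filter (fun e => m' e = 2), w e =
          ∑ e ∈ (univ : Finset S.edgeSet).filter (fun e => m e = 2), w e.1 := by
        rw [Finset.sum_filter, Finset.sum_filter]
        refine (Finset.sum_subtype S.edgeFinset (fun x => SimpleGraph.mem_edgeFinset)
            (fun e => if m' e = 2 then w e else 0)).trans (Finset.sum_congr rfl fun e _ => ?_)
        rw [hm' e]
      rw [e1, e2]
      exact hw
  · intro V E _ _ _ _ K hb w
    obtain ⟨m, hm, ⟨g, h1, h2, h3⟩, hw⟩ := Pool.Agent.U653.OC.main K hb w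
    refine ⟨g, m, h1, h2, hm, fun e => ?_, hw⟩
    rw [Finset.card_filter, Finset.card_filter]
    exact h3 e

end Pool.Agent.Results.MP_781dd6_co.MostEdgesOnce
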