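import Pool.Agent.U875.TP.Class

/-!
# Orientable five cycle double covers: tight partitions (MP_781dd6_co)

Let `G` be a finite multigraph without cut edges which satisfies one of the following conditions.
* every quotient of `G` (vertices are identified) with at least 18 vertices of odd degree is reducible:
  it has a vertex of degree two (loops not counted), a triangle, a circuit of length four, a set of
  `k ≥ 2` vertices which spans at least `2 k - 2` edges, a cut with at most three edges and edges on
  both sides, or a separating vertex;
* of three edges and a vertex always two are close: equal, with a common end, joined by an edge or by
  two different walks with two edges; for example if the underlying simple graph does not contain three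
  edges and a vertex as an induced subgraph;
* of seven vertices always two are close; for example, the independence number is at most six;
* no nine edges are pairwise disjoint.

Proof.  Let `H` be a quotient of `G` without nowhere-zero 4-flow and without Petersen quotient such
that all proper quotients of `H` have a flow.  The starting library shows that `H` has at least 18
vertices of odd degree, no vertex with one or two edges, no circuit of length at most four, and that
`k ≥ 2` vertices of `H` span at most `2 k - 3` edges.  New here: if a cut of `H` has at most three
edges then one side spans no edge (the flows of the two quotients in which one side is one vertex
agree on the cut up to an automorphism of the group), and `H` has no separating vertex; so `H` is not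
reducible.  New as well: a graph with minimum degree at least three, at least 18 vertices and no
circuit of length at most four has three edges and a vertex which are pairwise far from each other
(`U875/TP/Edges.lean`): otherwise the maximum degree is three, and after the deletion of two far
edges and their neighbours an edge with its four neighbours remains.
So `G` has a nowhere-zero 4-flow, or ten classes of vertices form a Petersen graph; the condition is
inherited by quotients, and the covers of the ten smaller graphs in which the vertices outside of
one class are identified are glued with the theorem `R890/FF/Sgn.lean` (`N410/DC/Gen.lean`).
-/

set_option autoImplicit false

namespace Pool.Agent.Results.MP_781dd6_co.TightPartitions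

open Finset Pool.Agent.H160R2.HF Pool.Agent.H23.PS Pool.Agent.U875.TP

/-- One of the conditions holds: every quotient with at least 18 vertices with an odd number of
boundary edges is reducible, or of three edges (not loops) and a vertex always two are close, or of
seven different vertices always two are close, or no nine edges are pairwise disjoint. -/
def Condition {V E : Type} [Fintype V] [DecidableEq V] [Fintype E] [DecidableEq E]
    (s t : E → V) : Prop :=
  QuotientsReducible s t ∨ ThreeClose s t ∨ SevenClose s t ∨
    (∀ M : Finset E, IsMatching s t M → M.card ≤ 8)

/-- under each of the conditions no quotient is minimal -/
theorem noMq {V E : Type} [Fintype V] [DecidableEq V] [Fintype E] [DecidableEq E]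
    {s t : E → V} (h : Condition s t) : NoMq s t := by
  rcases h with h | h | h | h
  · exact noMq_of_quotients h
  · exact noMq_of_three h
  · exact noMq_of_seven h
  · exact noMq_of_matching h

open scoped Classical in
/-- how often the closed walks of the list `C` traverse the arc from `u` to `v` -/
noncomputable def uses {V : Type} {S : SimpleGraph V} (C : List (Σ v : V, S.Walk v v)) (u v : V) :
    ℕ :=
  (C.map (fun c => (c.2.darts.filter (fun d => decide (d.toProd = (u, v)))).length)).sum

/-- The associated digraph of `S` decomposes into directed cycles of length at least three, in five
families none of which uses an edge twice. -/
def FiveFamilies {V : Type} (S : SimpleGraph V) : Prop :=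
  ∃ C : Fin 5 → List (Σ v : V, S.Walk v v), (∀ i, ∀ c ∈ C i, c.2.IsCycle) ∧
    (∀ i u v, uses (C i) u v + uses (C i) v u ≤ 1) ∧
    ∀ u v, S.Adj u v → ∑ i, uses (C i) u v = 1

/-- Every bridgeless multigraph `K` (with an orientation) which satisfies one of the conditions has an
orientable cycle double cover with five classes, and if it is an orientation of a simple graph `S`,
the associated digraph of `S` decomposes into directed cycles of length at least three, in five
families none of which uses an edge twice. -/
theorem result (V E : Type) [Fintype V] [DecidableEq V] [Fintype E] [DecidableEq E]
    (K : OrGraph V E) (hB : K.Bridgeless) (h : Condition K.t K.h) :
    FiveClasses K ∧ ∀ S : SimpleGraph V, IsOrientation S K → FiveFamilies S := by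
  have h1 : FiveClasses K := N410.DC.oc_gen inh_noMq K hB (gcl_of_noMq (noMq h))
  exact ⟨h1, fun S hS => cycles_of_classes S K hS h1⟩

end Pool.Agent.Results.MP_781dd6_co.TightPartitions
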